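import Pool.Agent.Q190.QCMain

/-!
# MP_0815b2_gt: perpendicular quadrisecting chords and the diameter

For every plane convex figure `F` and every pair of perpendicular chords `[a,c]`, `[b,d]`
quadrisecting its perimeter, `D(F) ≤ |a - c| + |b - d|`.
-/

open MeasureTheory Q190.Quadrisect

namespace Pool.Agent.Results.MP_0815b2_gt.QuadrisectingChordsDiameter

theorem result (F : Set Plane) (hF : IsConvexFigure F) (a c b d : Plane)
    (h : Quadrisects F a c b d) (hperp : Perpendicular a c b d) :
    Metric.diam F ≤ dist a c + dist b d :=
  Q190.QC.main_diam hF h hperp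

end Pool.Agent.Results.MP_0815b2_gt.QuadrisectingChordsDiameter
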